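import Pool.Agent.Lib.MP_5d599c_lc.Gen.Osss

/-!
The compatibility theorem for arbitrary probability measures on functions, in terms of
finite differences.
-/

open Finset MeasureTheory

namespace Pool.Agent.Lib.MP_5d599c_lc.Gen

variable {ι : Type*} [DecidableEq ι] [Fintype ι] {Y : Type*} [Fintype Y] [Nonempty Y]

omit [Fintype ι] [Fintype Y] [Nonempty Y] in
theorem lowDeg_pi {K : Type*} {e : ℕ} (f : K → (ι → Y) → ℂ) (hf : ∀ k, LowDeg e (f k)) :
    LowDeg e (fun x => (fun k => f k x : K → ℂ)) := by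
  intro B hB y x
  funext k
  have h1 := hf k B hB y x
  have h2 : (alt B (fun x => (fun k => f k x : K → ℂ)) y x) k = alt B (f k) y x := by
    simp [alt, Finset.sum_apply]
  rw [h2, h1]
  rfl

/-- Two sets of low degree functions such that every product vanishes are separated by a
shallow decision tree. -/
theorem separation_sets (d : ℕ) (A B : Set ((ι → Y) → ℂ)) (hA : ∀ f ∈ A, LowDeg (d + 1) f)
    (hB : ∀ g ∈ B, LowDeg (d + 1) g) (hAB : ∀ f ∈ A, ∀ g ∈ B, ∀ x, f x * g x = 0) :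
    ∃ h : (ι → Y) → ℝ, DT ((d + 1) * (2 * d ^ 3)) h ∧ (∀ x, h x = 0 ∨ h x = 1) ∧
      (∀ f ∈ A, ∀ x, f x ≠ 0 → h x = 1) ∧ ∀ g ∈ B, ∀ x, g x ≠ 0 → h x = 0 := by
  classical
  let pick : Set ((ι → Y) → ℂ) → (ι → Y) → ((ι → Y) → ℂ) := fun S p =>
    if h : ∃ f ∈ S, f p ≠ 0 then Classical.choose h else 0
  have hpick0 : ∀ (S : Set ((ι → Y) → ℂ)) p, pick S p ∈ S ∨ pick S p = 0 := by
    intro S p
    by_cases h : ∃ f ∈ S, f p ≠ 0
    · left
      have h1 : pick S p = Classical.choose h := dif_pos h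
      rw [h1]; exact (Classical.choose_spec h).1
    · right; exact dif_neg h
  have hpick1 : ∀ (S : Set ((ι → Y) → ℂ)) (f : (ι → Y) → ℂ) p, f ∈ S → f p ≠ 0 →
      pick S p p ≠ 0 := by
    intro S f p hf hp
    have h : ∃ f ∈ S, f p ≠ 0 := ⟨f, hf, hp⟩
    have h1 : pick S p = Classical.choose h := dif_pos h
    rw [h1]; exact (Classical.choose_spec h).2
  have hzero : LowDeg (d + 1) (0 : (ι → Y) → ℂ) := by
    intro B _ y x
    simp [alt]
  have hlA : ∀ p, LowDeg (d + 1) (pick A p) := by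
    intro p
    rcases hpick0 A p with h | h
    · exact hA _ h
    · rw [h]; exact hzero
  have hlB : ∀ p, LowDeg (d + 1) (pick B p) := by
    intro p
    rcases hpick0 B p with h | h
    · exact hB _ h
    · rw [h]; exact hzero
  let fE : (ι → Y) → PiLp 2 (fun _ : (ι → Y) => ℂ) := fun x => WithLp.toLp 2 (fun p => pick A p x)
  let gE : (ι → Y) → ((ι → Y) → ℂ) := fun x => (fun p => pick B p x)
  have hfE : ∀ x p, fE x p = pick A p x := fun x p => rfl
  have hfg : ∀ x, fE x = 0 ∨ gE x = 0 := by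
    intro x
    by_cases hfx : fE x = 0
    · exact Or.inl hfx
    · right
      have : ∃ p, pick A p x ≠ 0 := by
        by_contra hno
        push Not at hno
        apply hfx
        ext p
        exact hno p
      obtain ⟨p, hp⟩ := this
      funext q
      by_contra hq
      have hq' : pick B q x ≠ 0 := hq
      have h1 : pick A p ∈ A := (hpick0 A p).resolve_right (fun h0 => hp (by rw [h0]; rfl))
      have h2 : pick B q ∈ B := (hpick0 B q).resolve_right (fun h0 => hq' (by rw [h0]; rfl))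
      exact (mul_ne_zero hp hq') (hAB _ h1 _ h2 x)
  have hfEl : LowDeg (d + 1) fE := by
    have h1 := lowDeg_pi (fun p => pick A p) hlA
    exact h1.map ((WithLp.linearEquiv 2 ℝ ((ι → Y) → ℂ)).symm.toLinearMap.toAddMonoidHom)
  have hgEl : LowDeg (d + 1) gE := lowDeg_pi (fun p => pick B p) hlB
  obtain ⟨h, hD, h01, hf1, hg0⟩ := separation (E := PiLp 2 (fun _ : (ι → Y) => ℂ)) d (d + 1)
    hfg hfEl hgEl le_rfl
  refine ⟨h, hD, h01, fun f hf x hx => hf1 x ?_, fun g hg x hx => hg0 x ?_⟩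
  · intro h0
    apply hpick1 A f x hf hx
    rw [← hfE x x, h0]; rfl
  · intro h0
    exact hpick1 B g x hg hx (congrFun h0 x)

omit [Nonempty Y] in
/-- The average of `‖f x - f x'‖²`, where `x'` is `x` with coordinate `i` resampled. -/
noncomputable def dInf (i : ι) (f : (ι → Y) → ℂ) : ℝ :=
  avg (fun x => (∑ b : Y, ‖f x - f (Function.update x i b)‖ ^ 2) / Fintype.card Y)

theorem avg_resampled (φ : (ι → Y) → ℝ) (i : ι) :
    avg (fun x => (∑ b : Y, φ (Function.update x i b)) / Fintype.card Y) = avg φ := by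
  rw [avg_update φ i, ← avg_sum]
  have := avg_const_mul (1 / (Fintype.card Y : ℝ)) (fun x => ∑ b : Y, φ (Function.update x i b))
  rw [div_eq_mul_one_div, mul_comm, ← this]
  congr 1
  funext x
  ring

/-- Averages of differences of squares. -/
theorem resamp_sq_le (f : (ι → Y) → ℂ) (hn : avg (fun x => ‖f x‖ ^ 2) = 1) (i : ι)
    {θ : ℝ} (hθ : 0 < θ) :
    resamp i (fun x => ‖f x‖ ^ 2) ≤ (1 / (2 * θ)) * dInf i f + 2 * θ := by
  have hY := card_pos_Y (Y := Y)
  have h1 : ∀ x b, |‖f (Function.update x i b)‖ ^ 2 - ‖f x‖ ^ 2| ≤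
      (1 / (2 * θ)) * ‖f x - f (Function.update x i b)‖ ^ 2 +
        θ * (‖f x‖ ^ 2 + ‖f (Function.update x i b)‖ ^ 2) := by
    intro x b
    set a := ‖f x‖
    set b' := ‖f (Function.update x i b)‖
    set c := ‖f x - f (Function.update x i b)‖
    have ha : 0 ≤ a := norm_nonneg _
    have hb : 0 ≤ b' := norm_nonneg _
    have hc : |b' - a| ≤ c := by
      rw [abs_sub_comm]
      exact abs_norm_sub_norm_le _ _
    have hc0 : 0 ≤ c := norm_nonneg _
    have h2 : |b' ^ 2 - a ^ 2| ≤ c * (a + b') := by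
      have : b' ^ 2 - a ^ 2 = (b' - a) * (a + b') := by ring
      rw [this, abs_mul, abs_of_nonneg (by positivity : 0 ≤ a + b')]
      gcongr
    refine h2.trans ?_
    have h3 : c * (a + b') ≤ (1 / (2 * θ)) * c ^ 2 + (θ / 2) * (a + b') ^ 2 := by
      have h4 : 0 ≤ (1 / (2 * θ)) * (c - θ * (a + b')) ^ 2 := by positivity
      have h5 : (1 / (2 * θ)) * (c - θ * (a + b')) ^ 2 =
          (1 / (2 * θ)) * c ^ 2 + (θ / 2) * (a + b') ^ 2 - c * (a + b') := by
        field_simp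
        ring
      linarith
    have h6 : (θ / 2) * (a + b') ^ 2 ≤ θ * (a ^ 2 + b' ^ 2) := by
      nlinarith [sq_nonneg (a - b')]
    linarith
  have h2 : resamp i (fun x => ‖f x‖ ^ 2) ≤ avg (fun x => (1 / (2 * θ)) *
      ((∑ b : Y, ‖f x - f (Function.update x i b)‖ ^ 2) / Fintype.card Y) +
      θ * (‖f x‖ ^ 2 + (∑ b : Y, ‖f (Function.update x i b)‖ ^ 2) / Fintype.card Y)) := by
    refine avg_mono (fun x => ?_)
    have h3 := Finset.sum_le_sum (fun b (_ : b ∈ (Finset.univ : Finset Y)) => h1 x b)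
    rw [div_le_iff₀ hY]
    refine h3.trans (le_of_eq ?_)
    rw [Finset.sum_add_distrib, ← Finset.mul_sum, ← Finset.mul_sum, Finset.sum_add_distrib,
      Finset.sum_const, Finset.card_univ, nsmul_eq_mul]
    field_simp
  refine h2.trans (le_of_eq ?_)
  rw [avg_add, avg_const_mul, avg_const_mul, avg_add, avg_resampled (fun x => ‖f x‖ ^ 2) i, hn]
  unfold dInf
  ring

theorem dInf_nonneg (i : ι) (f : (ι → Y) → ℂ) : 0 ≤ dInf i f := by
  have h1 : (0 : ℝ) = avg (fun _ : ι → Y => 0) := (avg_const 0).symm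
  rw [h1]
  refine avg_mono (fun x => ?_)
  positivity

theorem dInf_le (i : ι) (f : (ι → Y) → ℂ) : dInf i f ≤ 4 * avg (fun x => ‖f x‖ ^ 2) := by
  have hY := card_pos_Y (Y := Y)
  have h2 : dInf i f ≤ avg (fun x => 2 *
      (‖f x‖ ^ 2 + (∑ b : Y, ‖f (Function.update x i b)‖ ^ 2) / Fintype.card Y)) := by
    refine avg_mono (fun x => ?_)
    have h3 : ∑ b : Y, ‖f x - f (Function.update x i b)‖ ^ 2 ≤
        ∑ b : Y, 2 * (‖f x‖ ^ 2 + ‖f (Function.update x i b)‖ ^ 2) := by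
      refine Finset.sum_le_sum (fun b _ => ?_)
      have h4 := norm_sub_le (f x) (f (Function.update x i b))
      have h5 := norm_nonneg (f x - f (Function.update x i b))
      nlinarith [sq_nonneg (‖f x‖ - ‖f (Function.update x i b)‖), norm_nonneg (f x),
        norm_nonneg (f (Function.update x i b))]
    rw [div_le_iff₀ hY]
    refine h3.trans (le_of_eq ?_)
    rw [← Finset.mul_sum, Finset.sum_add_distrib, Finset.sum_const, Finset.card_univ, nsmul_eq_mul]
    field_simp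
  refine h2.trans (le_of_eq ?_)
  rw [avg_const_mul, avg_add, avg_resampled (fun x => ‖f x‖ ^ 2) i]
  ring

omit [Nonempty Y] in
theorem continuous_dInf (i : ι) : Continuous (fun f : (ι → Y) → ℂ => dInf i f) := by
  unfold dInf avg
  fun_prop

/-- Half of the core estimate. -/
theorem half_core {d : ℕ} (hd : 1 ≤ d) (μ : Measure ((ι → Y) → ℂ)) [IsProbabilityMeasure μ]
    (A : Set ((ι → Y) → ℂ)) (hA : ∀ᵐ f ∂μ, f ∈ A)
    (hfn : ∀ f ∈ A, avg (fun x => ‖f x‖ ^ 2) = 1)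
    (hfi : ∀ i : ι, ∫ f, dInf i f ∂μ ≤ 2 * (1 / (1024 * (d : ℝ) ^ 8)))
    (h : (ι → Y) → ℝ) (hD : DT ((d + 1) * (2 * d ^ 3)) h) (h01 : ∀ x, h x = 0 ∨ h x = 1)
    (c : ℝ) (hc : ∀ f ∈ A, avg (fun x => h x * ‖f x‖ ^ 2) = c) :
    |c - avg h| ≤ 3 / 8 := by
  have hd' : (1 : ℝ) ≤ d := by exact_mod_cast hd
  have hdpos : (0 : ℝ) < d := by linarith
  set θ : ℝ := 1 / (32 * (d : ℝ) ^ 4) with hθdef
  have hθ : 0 < θ := by positivity
  have hb : ∀ x, |h x| ≤ 1 := by
    intro x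
    rcases h01 x with h | h <;> simp [h]
  obtain ⟨δ, hδ0, hδs, hδ⟩ := osss _ h hD hb
  have key : ∀ᵐ f ∂μ, |c - avg h| ≤ ∑ i, δ i * ((1 / (2 * θ)) * dInf i f + 2 * θ) := by
    filter_upwards [hA] with f hf
    have h1 := hδ (fun x => ‖f x‖ ^ 2)
    rw [hfn f hf, mul_one, hc f hf] at h1
    refine h1.trans (Finset.sum_le_sum (fun i _ => ?_))
    exact mul_le_mul_of_nonneg_left (resamp_sq_le f (hfn f hf) i hθ) (hδ0 i)
  have hint : ∀ i, Integrable (fun f : (ι → Y) → ℂ => dInf i f) μ := by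
    intro i
    refine Integrable.of_bound (continuous_dInf i).aestronglyMeasurable 4 ?_
    filter_upwards [hA] with f hf
    rw [Real.norm_eq_abs, abs_of_nonneg (dInf_nonneg i f)]
    have := dInf_le i f
    rw [hfn f hf] at this
    linarith
  have hint2 : ∀ i, Integrable (fun f : (ι → Y) → ℂ => δ i * ((1 / (2 * θ)) * dInf i f + 2 * θ)) μ :=
    fun i => (((hint i).const_mul _).add (integrable_const _)).const_mul _
  have h1 : |c - avg h| ≤ ∫ f, ∑ i, δ i * ((1 / (2 * θ)) * dInf i f + 2 * θ) ∂μ := by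
    have h2 : |c - avg h| = ∫ _f : (ι → Y) → ℂ, |c - avg h| ∂μ := by simp
    rw [h2]
    exact integral_mono_ae (integrable_const _) (integrable_finsetSum _ (fun i _ => hint2 i)) key
  have h3 : ∫ f, ∑ i, δ i * ((1 / (2 * θ)) * dInf i f + 2 * θ) ∂μ =
      ∑ i, δ i * ((1 / (2 * θ)) * (∫ f, dInf i f ∂μ) + 2 * θ) := by
    rw [integral_finsetSum _ (fun i _ => hint2 i)]
    refine Finset.sum_congr rfl (fun i _ => ?_)
    rw [integral_const_mul, integral_add ((hint i).const_mul _) (integrable_const _),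
      integral_const_mul]
    simp
  rw [h3] at h1
  have h4 : ∑ i, δ i * ((1 / (2 * θ)) * (∫ f, dInf i f ∂μ) + 2 * θ) ≤
      ∑ i, δ i * (3 / (32 * (d : ℝ) ^ 4)) := by
    refine Finset.sum_le_sum (fun i _ => mul_le_mul_of_nonneg_left ?_ (hδ0 i))
    calc (1 / (2 * θ)) * (∫ f, dInf i f ∂μ) + 2 * θ ≤
        (1 / (2 * θ)) * (2 * (1 / (1024 * (d : ℝ) ^ 8))) + 2 * θ := by
          gcongr
          exact hfi i
      _ = 3 / (32 * (d : ℝ) ^ 4) := by
          rw [hθdef]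
          field_simp
          ring
  rw [← Finset.sum_mul] at h4
  have h8 : ((d : ℝ) + 1) * (2 * (d : ℝ) ^ 3) ≤ 4 * (d : ℝ) ^ 4 := by
    have h9 : (0 : ℝ) ≤ (d : ℝ) ^ 3 := by positivity
    nlinarith
  have h10 : ∑ i, δ i ≤ 4 * (d : ℝ) ^ 4 := by
    refine hδs.trans ?_
    push_cast
    exact h8
  calc |c - avg h| ≤ _ := h1
    _ ≤ (∑ i, δ i) * (3 / (32 * (d : ℝ) ^ 4)) := h4
    _ ≤ 4 * (d : ℝ) ^ 4 * (3 / (32 * (d : ℝ) ^ 4)) := by gcongr
    _ = 3 / 8 := by field_simp; ring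

/-- **The compatibility theorem**, in terms of finite differences. -/
theorem compat_core {d : ℕ} (hd : 1 ≤ d) (μ ν : Measure ((ι → Y) → ℂ))
    [IsProbabilityMeasure μ] [IsProbabilityMeasure ν] (A B : Set ((ι → Y) → ℂ))
    (hA : ∀ᵐ f ∂μ, f ∈ A) (hB : ∀ᵐ g ∂ν, g ∈ B)
    (hfn : ∀ f ∈ A, avg (fun x => ‖f x‖ ^ 2) = 1) (hgn : ∀ g ∈ B, avg (fun x => ‖g x‖ ^ 2) = 1)
    (hfl : ∀ f ∈ A, LowDeg (d + 1) f) (hgl : ∀ g ∈ B, LowDeg (d + 1) g)
    (hfi : ∀ i : ι, ∫ f, dInf i f ∂μ ≤ 2 * (1 / (1024 * (d : ℝ) ^ 8)))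
    (hgi : ∀ i : ι, ∫ g, dInf i g ∂ν ≤ 2 * (1 / (1024 * (d : ℝ) ^ 8))) :
    ∃ f ∈ A, ∃ g ∈ B, ∃ x, f x * g x ≠ 0 := by
  by_contra hcon
  push Not at hcon
  obtain ⟨h, hD, h01, hf1, hg0⟩ := separation_sets d A B hfl hgl hcon
  have e1 : ∀ f ∈ A, avg (fun x => h x * ‖f x‖ ^ 2) = 1 := by
    intro f hf
    rw [← hfn f hf]
    congr 1
    funext x
    by_cases hfx : f x = 0
    · simp [hfx]
    · rw [hf1 f hf x hfx, one_mul]
  have e2 : ∀ g ∈ B, avg (fun x => h x * ‖g x‖ ^ 2) = 0 := by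
    intro g hg
    have : (fun x => h x * ‖g x‖ ^ 2) = fun _ => 0 := by
      funext x
      by_cases hgx : g x = 0
      · simp [hgx]
      · rw [hg0 g hg x hgx, zero_mul]
    rw [this, avg_const]
  have h1 := half_core hd μ A hA hfn hfi h hD h01 1 e1
  have h2 := half_core hd ν B hB hgn hgi h hD h01 0 e2
  rw [abs_le] at h1 h2
  linarith [h1.1, h1.2, h2.1, h2.2]

end Pool.Agent.Lib.MP_5d599c_lc.Gen
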