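import Mathlib

/-!
Finite differences for functions on a power `ι → Y` of an arbitrary alphabet `Y`.
-/

open Finset

namespace Pool.Agent.Lib.MP_5d599c_lc.Gen

variable {ι : Type*} [DecidableEq ι] {Y : Type*}

/-- Move the coordinates in `S` from `x` to the target `y`. -/
def mv (y x : ι → Y) (S : Finset ι) : ι → Y := fun i => if i ∈ S then y i else x i

@[simp] theorem mv_empty (y x : ι → Y) : mv y x ∅ = x := by
  funext i; simp [mv]

theorem mv_union (y x : ι → Y) (S T : Finset ι) : mv y x (S ∪ T) = mv y (mv y x S) T := by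
  funext i
  by_cases h1 : i ∈ S <;> by_cases h2 : i ∈ T <;> simp [mv, h1, h2]

theorem mv_comm (y x : ι → Y) (S T : Finset ι) : mv y (mv y x S) T = mv y (mv y x T) S := by
  rw [← mv_union, ← mv_union, Finset.union_comm]

theorem mv_insert (y x : ι → Y) (S : Finset ι) (i : ι) :
    mv y x (insert i S) = mv y (mv y x {i}) S := by
  rw [← mv_union]
  congr 1

theorem mv_singleton (y x : ι → Y) (i : ι) : mv y x {i} = Function.update x i (y i) := by
  funext j
  by_cases hj : j = i
  · subst hj; simp [mv]
  · simp [mv, hj]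

theorem mv_congr {y y' : ι → Y} {S : Finset ι} (h : ∀ i ∈ S, y i = y' i) (x : ι → Y) :
    mv y x S = mv y' x S := by
  funext i
  by_cases hi : i ∈ S
  · simp [mv, hi, h i hi]
  · simp [mv, hi]

variable {E : Type*} [AddCommGroup E]

/-- The alternating sum of `h` over the subcube with directions `B` between `x` and `y`. -/
def alt (B : Finset ι) (h : (ι → Y) → E) (y x : ι → Y) : E :=
  ∑ S ∈ B.powerset, (-1 : ℤ) ^ S.card • h (mv y x S)

theorem alt_empty (h : (ι → Y) → E) (y x : ι → Y) : alt ∅ h y x = h x := by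
  simp [alt]

theorem alt_insert {i : ι} {B : Finset ι} (hi : i ∉ B) (h : (ι → Y) → E)
    (y x : ι → Y) : alt (insert i B) h y x = alt B h y x - alt B h y (mv y x {i}) := by
  unfold alt
  rw [Finset.sum_powerset_insert hi, sub_eq_add_neg, ← Finset.sum_neg_distrib]
  congr 1
  refine Finset.sum_congr rfl (fun S hS => ?_)
  have hiS : i ∉ S := fun h' => hi (Finset.mem_powerset.1 hS h')
  rw [Finset.card_insert_of_notMem hiS, mv_insert, pow_succ]
  simp

theorem alt_congr {B : Finset ι} {y y' : ι → Y} (hy : ∀ i ∈ B, y i = y' i) (h : (ι → Y) → E)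
    (x : ι → Y) : alt B h y x = alt B h y' x := by
  unfold alt
  refine Finset.sum_congr rfl (fun S hS => ?_)
  rw [mv_congr (fun i hi => hy i (Finset.mem_powerset.1 hS hi))]

theorem alt_eq_zero_of_agree {i : ι} {B : Finset ι} (hi : i ∈ B) (h : (ι → Y) → E)
    (y x : ι → Y) (hxy : x i = y i) : alt B h y x = 0 := by
  obtain ⟨B', hB', rfl⟩ : ∃ B', i ∉ B' ∧ insert i B' = B :=
    ⟨B.erase i, Finset.notMem_erase i B, Finset.insert_erase hi⟩
  have h1 : mv y x {i} = x := by
    rw [mv_singleton, ← hxy]; exact Function.update_eq_self i x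
  rw [alt_insert hB', h1, sub_self]

/-- If `h` does not depend on the coordinate `i ∈ B`, the alternating sum vanishes. -/
theorem alt_eq_zero_of_indep {i : ι} {B : Finset ι} (hi : i ∈ B) (h : (ι → Y) → E)
    (hind : ∀ z b, h (Function.update z i b) = h z) (y x : ι → Y) : alt B h y x = 0 := by
  obtain ⟨B', hB', rfl⟩ : ∃ B', i ∉ B' ∧ insert i B' = B :=
    ⟨B.erase i, Finset.notMem_erase i B, Finset.insert_erase hi⟩
  rw [alt_insert hB', sub_eq_zero]
  unfold alt
  refine Finset.sum_congr rfl (fun S _ => ?_)
  rw [mv_comm, mv_singleton, hind]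

/-- `h` has degree less than `e`. -/
def LowDeg (e : ℕ) (h : (ι → Y) → E) : Prop :=
  ∀ B : Finset ι, e ≤ B.card → ∀ y x, alt B h y x = 0

theorem LowDeg.mono {e e' : ℕ} (hee : e ≤ e') {h : (ι → Y) → E} (hl : LowDeg e h) :
    LowDeg e' h := fun B hB y x => hl B (hee.trans hB) y x

theorem LowDeg.map {F : Type*} [AddCommGroup F] {e : ℕ} {h : (ι → Y) → E}
    (hl : LowDeg e h) (L : E →+ F) : LowDeg e (fun x => L (h x)) := by
  intro B hB y x
  have := hl B hB y x
  have h2 : alt B (fun x => L (h x)) y x = L (alt B h y x) := by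
    unfold alt
    rw [map_sum]
    refine Finset.sum_congr rfl (fun S _ => ?_)
    rw [map_zsmul]
  rw [h2, this, map_zero]

theorem piecewise_mv (C S : Finset ι) (ρ y x : ι → Y) :
    C.piecewise ρ (mv y x S) = mv (C.piecewise ρ y) (C.piecewise ρ x) S := by
  funext i
  by_cases h1 : i ∈ C <;> by_cases h2 : i ∈ S <;> simp [mv, Finset.piecewise, h1, h2]

theorem alt_piecewise {B C : Finset ι} (h : (ι → Y) → E) (ρ y x : ι → Y) :
    alt B (fun z => h (C.piecewise ρ z)) y x =
      alt B h (C.piecewise ρ y) (C.piecewise ρ x) := by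
  unfold alt
  refine Finset.sum_congr rfl (fun S _ => ?_)
  rw [← piecewise_mv]

theorem LowDeg.piecewise {e : ℕ} {h : (ι → Y) → E} (hl : LowDeg e h) (C : Finset ι)
    (ρ : ι → Y) : LowDeg e (fun y => h (C.piecewise ρ y)) := by
  intro B hB y x
  rw [alt_piecewise]
  exact hl B hB _ _

/-- The top alternating sums do not depend on the coordinates outside of `B`. -/
theorem alt_top_congr {e : ℕ} {h : (ι → Y) → E} (hl : LowDeg (e + 1) h) {B : Finset ι}
    (hB : B.card = e) (T : Finset ι) (hT : Disjoint B T) (y z x : ι → Y) :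
    alt B h y (mv z x T) = alt B h y x := by
  induction T using Finset.induction_on generalizing x with
  | empty => simp
  | insert i T hi ih =>
    rw [Finset.disjoint_insert_right] at hT
    rw [mv_insert, ih hT.2]
    have h1 := hl (insert i B) (by rw [Finset.card_insert_of_notMem hT.1, hB])
      (Function.update y i (z i)) x
    rw [alt_insert hT.1, sub_eq_zero] at h1
    have h2 : ∀ w, alt B h (Function.update y i (z i)) w = alt B h y w := by
      intro w
      refine alt_congr (fun j hj => ?_) h w
      have : j ≠ i := by rintro rfl; exact hT.1 hj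
      simp [this]
    rw [h2, h2] at h1
    have h3 : mv (Function.update y i (z i)) x {i} = mv z x {i} := by
      rw [mv_singleton, mv_singleton, Function.update_self]
    rw [h3] at h1
    exact h1.symm

/-- If `h` has degree at most `e` and vanishes on a subcube with fixed coordinates `C`, then fixing
the coordinates in `C` in any way makes the degree drop. -/
theorem LowDeg.drop {e : ℕ} {h : (ι → Y) → E} (hl : LowDeg (e + 1) h)
    (C : Finset ι) (x0 : ι → Y) (hzero : ∀ y, h (C.piecewise x0 y) = 0) (ρ : ι → Y) :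
    LowDeg e (fun y => h (C.piecewise ρ y)) := by
  intro B hB y x
  rcases hB.lt_or_eq with hlt | heq
  · exact hl.piecewise C ρ B hlt y x
  · rw [alt_piecewise]
    by_cases hBC : Disjoint B C
    · have h1 : C.piecewise x0 x = mv x0 (C.piecewise ρ x) C := by
        funext i
        by_cases hi : i ∈ C <;> simp [mv, Finset.piecewise, hi]
      have h2 := alt_top_congr hl heq.symm C hBC (C.piecewise ρ y) x0 (C.piecewise ρ x)
      rw [← h1] at h2
      rw [← h2]
      have h3 : alt B h (C.piecewise ρ y) (C.piecewise x0 x) =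
          alt B h (C.piecewise x0 y) (C.piecewise x0 x) := by
        refine alt_congr (fun i hi => ?_) h _
        have hiC : i ∉ C := fun hiC => Finset.disjoint_left.1 hBC hi hiC
        simp [Finset.piecewise, hiC]
      rw [h3, ← alt_piecewise]
      simp [alt, hzero]
    · rw [Finset.not_disjoint_iff] at hBC
      obtain ⟨i, hiB, hiC⟩ := hBC
      refine alt_eq_zero_of_agree hiB h _ _ ?_
      simp [Finset.piecewise, hiC]

/-- Minimal nonvanishing blocks are small. -/
theorem LowDeg.card_lt_of_minimal {e : ℕ} {h : (ι → Y) → E} (hl : LowDeg e h)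
    (y x : ι → Y) (B : Finset ι) (hB : h (mv y x B) ≠ 0)
    (hmin : ∀ S ⊂ B, h (mv y x S) = 0) : B.card < e := by
  by_contra hcon
  push Not at hcon
  have h1 := hl B hcon y x
  unfold alt at h1
  rw [Finset.sum_eq_single_of_mem B (Finset.mem_powerset_self B)] at h1
  · apply hB
    rcases neg_one_pow_eq_or ℤ B.card with h2 | h2
    · rw [h2, one_smul] at h1; exact h1
    · rw [h2, neg_smul, one_smul, neg_eq_zero] at h1; exact h1
  · intro S hS hne
    rw [hmin S ((Finset.mem_powerset.1 hS).ssubset_of_ne hne), smul_zero]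

end Pool.Agent.Lib.MP_5d599c_lc.Gen
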