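import Pool.Agent.Lib.MP_5d599c_lc.Gen.Core

/-!
Translation between characters of `Y^N` and finite differences, for a finite abelian group `Y`.
-/

open Finset

namespace Pool.Agent.Lib.MP_5d599c_lc.Gen

variable {N : ℕ} {Y : Type*} [AddCommGroup Y] [Fintype Y]

omit [Fintype Y] in
/-- The character of `Y^N` given by a tuple of characters. -/
noncomputable def ch (χ : Fin N → AddChar Y ℂ) (x : Fin N → Y) : ℂ := ∏ i, χ i (x i)

/-- Unnormalized Fourier coefficient. -/
noncomputable def fc (h : (Fin N → Y) → ℂ) (χ : Fin N → AddChar Y ℂ) : ℂ :=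
  ∑ x, h x * star (ch χ x)

omit [Fintype Y] in
theorem ch_update (χ : Fin N → AddChar Y ℂ) (x : Fin N → Y) (i : Fin N) (c : Y) :
    ch χ (Function.update x i (x i + c)) = ch χ x * χ i c := by
  unfold ch
  rw [← Finset.mul_prod_erase Finset.univ _ (Finset.mem_univ i),
    ← Finset.mul_prod_erase Finset.univ (fun j => χ j (x j)) (Finset.mem_univ i)]
  have h1 : (χ i) (Function.update x i (x i + c) i) = χ i (x i) * χ i c := by
    simp [AddChar.map_add_eq_mul]
  have h2 : ∏ j ∈ Finset.univ.erase i, (χ j) (Function.update x i (x i + c) j) =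
      ∏ j ∈ Finset.univ.erase i, χ j (x j) := by
    refine Finset.prod_congr rfl (fun j hj => ?_)
    have : j ≠ i := Finset.ne_of_mem_erase hj
    simp [this]
  rw [h1, h2]
  ring

omit [Fintype Y] in
theorem ch_update_triv (χ : Fin N → AddChar Y ℂ) (x : Fin N → Y) (i : Fin N) (b : Y)
    (hi : χ i = 1) : ch χ (Function.update x i b) = ch χ x := by
  have h1 := ch_update χ x i (b - x i)
  rw [hi] at h1
  simpa using h1

theorem kernel [DecidableEq Y] (x y : Fin N → Y) :
    ∑ χ : Fin N → AddChar Y ℂ, ch χ x * star (ch χ y) =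
      if x = y then (Fintype.card Y : ℂ) ^ N else 0 := by
  classical
  have h1 : ∀ χ : Fin N → AddChar Y ℂ, ch χ x * star (ch χ y) =
      ∏ i, χ i (x i - y i) := by
    intro χ
    unfold ch
    rw [star_prod, ← Finset.prod_mul_distrib]
    refine Finset.prod_congr rfl (fun i _ => ?_)
    rw [sub_eq_add_neg, AddChar.map_add_eq_mul, AddChar.map_neg_eq_conj]
    rfl
  simp only [h1]
  have h2 : ∑ χ : Fin N → AddChar Y ℂ, ∏ i, χ i (x i - y i) =
      ∏ i : Fin N, ∑ ψ : AddChar Y ℂ, ψ (x i - y i) := by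
    rw [Finset.prod_univ_sum]
    simp
  rw [h2]
  have h3 : ∀ i : Fin N, ∑ ψ : AddChar Y ℂ, ψ (x i - y i) =
      if x i = y i then (Fintype.card Y : ℂ) else 0 := by
    intro i
    rw [AddChar.sum_apply_eq_ite]
    simp [sub_eq_zero]
  simp only [h3]
  by_cases hxy : x = y
  · simp [hxy]
  · rw [if_neg hxy]
    obtain ⟨i, hi⟩ := Function.ne_iff.1 hxy
    exact Finset.prod_eq_zero (Finset.mem_univ i) (if_neg hi)

theorem inversion (h : (Fin N → Y) → ℂ) (x : Fin N → Y) :
    ∑ χ : Fin N → AddChar Y ℂ, fc h χ * ch χ x = (Fintype.card Y : ℂ) ^ N * h x := by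
  classical
  unfold fc
  simp only [Finset.sum_mul]
  rw [Finset.sum_comm]
  have h1 : ∀ y, ∑ χ : Fin N → AddChar Y ℂ, h y * star (ch χ y) * ch χ x =
      h y * (if x = y then (Fintype.card Y : ℂ) ^ N else 0) := by
    intro y
    rw [← kernel x y, Finset.mul_sum]
    refine Finset.sum_congr rfl (fun χ _ => ?_)
    ring
  simp only [h1]
  simp [mul_comm]

theorem norm_sq_eq (z : ℂ) : ((‖z‖ ^ 2 : ℝ) : ℂ) = z * star z := by
  rw [Complex.star_def, Complex.mul_conj, Complex.normSq_eq_norm_sq]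

theorem parseval (h : (Fin N → Y) → ℂ) :
    ∑ χ : Fin N → AddChar Y ℂ, ‖fc h χ‖ ^ 2 = (Fintype.card Y : ℝ) ^ N * ∑ x, ‖h x‖ ^ 2 := by
  have key : ((∑ χ : Fin N → AddChar Y ℂ, ‖fc h χ‖ ^ 2 : ℝ) : ℂ) =
      (((Fintype.card Y : ℝ) ^ N * ∑ x, ‖h x‖ ^ 2 : ℝ) : ℂ) := by
    push_cast
    have h2 : ∀ χ : Fin N → AddChar Y ℂ, ((‖fc h χ‖ : ℂ)) ^ 2 =
        ∑ y, (fc h χ * ch χ y) * star (h y) := by
      intro χ
      have := norm_sq_eq (fc h χ)
      push_cast at this
      rw [this]
      conv_lhs => rw [show star (fc h χ) = ∑ y, star (h y) * ch χ y by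
        unfold fc
        rw [star_sum]
        refine Finset.sum_congr rfl (fun y _ => ?_)
        simp]
      rw [Finset.mul_sum]
      refine Finset.sum_congr rfl (fun y _ => ?_)
      ring
    simp only [h2]
    rw [Finset.sum_comm, Finset.mul_sum]
    refine Finset.sum_congr rfl (fun y _ => ?_)
    rw [← Finset.sum_mul, inversion]
    have := norm_sq_eq (h y)
    push_cast at this
    rw [this]
    ring
  exact_mod_cast key

/-- Low Fourier degree implies vanishing alternating sums. -/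
theorem lowDeg_of_fourier {d : ℕ} (h : (Fin N → Y) → ℂ)
    (hh : ∀ χ : Fin N → AddChar Y ℂ, d < {i | χ i ≠ 1}.ncard → fc h χ = 0) :
    LowDeg (d + 1) h := by
  classical
  intro B hB y x
  have hY : (Fintype.card Y : ℂ) ≠ 0 := by exact_mod_cast Fintype.card_ne_zero
  have h1 : ∀ z, h z = (1 / (Fintype.card Y : ℂ) ^ N) *
      ∑ χ : Fin N → AddChar Y ℂ, fc h χ * ch χ z := by
    intro z
    rw [inversion]
    field_simp
  have h2 : alt B h y x = (1 / (Fintype.card Y : ℂ) ^ N) *
      ∑ χ : Fin N → AddChar Y ℂ, fc h χ * alt B (ch χ) y x := by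
    unfold alt
    simp only [zsmul_eq_mul]
    have h3 : ∀ S ∈ B.powerset, (((-1 : ℤ) ^ S.card : ℤ) : ℂ) * h (mv y x S) =
        (1 / (Fintype.card Y : ℂ) ^ N) * ∑ χ : Fin N → AddChar Y ℂ,
          fc h χ * ((((-1 : ℤ) ^ S.card : ℤ) : ℂ) * ch χ (mv y x S)) := by
      intro S _
      rw [h1 (mv y x S), Finset.mul_sum, Finset.mul_sum, Finset.mul_sum]
      refine Finset.sum_congr rfl (fun χ _ => ?_)
      ring
    rw [Finset.sum_congr rfl h3, ← Finset.mul_sum, Finset.sum_comm]
    congr 1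
    refine Finset.sum_congr rfl (fun χ _ => ?_)
    rw [Finset.mul_sum]
  rw [h2]
  have h4 : ∀ χ : Fin N → AddChar Y ℂ, fc h χ * alt B (ch χ) y x = 0 := by
    intro χ
    by_cases hχ : d < {i | χ i ≠ 1}.ncard
    · rw [hh χ hχ, zero_mul]
    · have : ∃ i ∈ B, χ i = 1 := by
        by_contra hno
        push Not at hno
        apply hχ
        have h5 : (B : Set (Fin N)) ⊆ {i | χ i ≠ 1} := fun i hi => hno i hi
        have h6 := Set.ncard_le_ncard h5 (Set.toFinite _)
        rw [Set.ncard_coe_finset] at h6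
        omega
      obtain ⟨i, hiB, hi⟩ := this
      rw [alt_eq_zero_of_indep hiB (ch χ) (fun z b => ch_update_triv χ z i b hi) y x, mul_zero]
  simp [h4]

/-- Shifting a coordinate is a bijection. -/
theorem sum_shift {M : Type*} [AddCommMonoid M] (F : (Fin N → Y) → M) (i : Fin N) (c : Y) :
    ∑ x, F (Function.update x i (x i + c)) = ∑ x, F x := by
  let e : (Fin N → Y) ≃ (Fin N → Y) :=
    ⟨fun x => Function.update x i (x i + c), fun x => Function.update x i (x i - c),
      fun x => by simp, fun x => by simp⟩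
  exact e.sum_comp F

theorem fc_shift (h : (Fin N → Y) → ℂ) (i : Fin N) (c : Y) (χ : Fin N → AddChar Y ℂ) :
    fc (fun x => h x - h (Function.update x i (x i + c))) χ = (1 - χ i c) * fc h χ := by
  have h1 : fc (fun x => h (Function.update x i (x i + c))) χ = χ i c * fc h χ := by
    unfold fc
    rw [Finset.mul_sum, ← sum_shift (fun x => χ i c * (h x * star (ch χ x))) i c]
    refine Finset.sum_congr rfl (fun x _ => ?_)
    rw [ch_update, star_mul']
    have h2 : χ i c * star (χ i c) = 1 := by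
      have h3 : star (χ i c) = χ i (-c) := by
        rw [AddChar.map_neg_eq_conj]; rfl
      rw [h3, ← AddChar.map_add_eq_mul, add_neg_cancel, AddChar.map_zero_eq_one]
    linear_combination (-(h (Function.update x i (x i + c)) * star (ch χ x))) * h2
  have h2 : fc (fun x => h x - h (Function.update x i (x i + c))) χ =
      fc h χ - fc (fun x => h (Function.update x i (x i + c))) χ := by
    unfold fc
    rw [← Finset.sum_sub_distrib]
    refine Finset.sum_congr rfl (fun x _ => ?_)
    ring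
  rw [h2, h1]
  ring

theorem sum_one_sub (ψ : AddChar Y ℂ) [Decidable (ψ ≠ 1)] :
    ∑ c : Y, ‖1 - ψ c‖ ^ 2 = if ψ ≠ 1 then 2 * (Fintype.card Y : ℝ) else 0 := by
  by_cases hψ : ψ = 1
  · simp [hψ]
  · rw [if_pos hψ]
    have h0 : ∑ c : Y, ψ c = 0 := AddChar.sum_eq_zero_of_ne_one hψ
    have key : ((∑ c : Y, ‖1 - ψ c‖ ^ 2 : ℝ) : ℂ) = ((2 * (Fintype.card Y : ℝ) : ℝ) : ℂ) := by
      push_cast
      have h1 : ∀ c : Y, ((‖1 - ψ c‖ : ℂ)) ^ 2 = 2 - ψ c - star (ψ c) := by
        intro c
        have h2 := norm_sq_eq (1 - ψ c)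
        push_cast at h2
        rw [h2, star_sub, star_one]
        have h4 : ψ c * star (ψ c) = 1 := by
          have h3 : star (ψ c) = ψ (-c) := by
            rw [AddChar.map_neg_eq_conj]; rfl
          rw [h3, ← AddChar.map_add_eq_mul, add_neg_cancel, AddChar.map_zero_eq_one]
        linear_combination h4
      simp only [h1, Finset.sum_sub_distrib, h0, ← star_sum]
      simp [mul_comm]
    exact_mod_cast key

/-- Influence in terms of differences. -/
theorem influence_eq (h : (Fin N → Y) → ℂ) (i : Fin N) [DecidablePred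
    (fun χ : Fin N → AddChar Y ℂ => χ i ≠ 1)] :
    ∑ χ : Fin N → AddChar Y ℂ with χ i ≠ 1, ‖(fc h χ) / (Fintype.card Y : ℂ) ^ N‖ ^ 2 =
      (1 / 2) * dInf i h := by
  classical
  have hY : (0 : ℝ) < Fintype.card Y := by exact_mod_cast Fintype.card_pos
  -- the double sum of squared differences
  have h1 : ∑ c : Y, ∑ x : Fin N → Y, ‖h x - h (Function.update x i (x i + c))‖ ^ 2 =
      (1 / (Fintype.card Y : ℝ) ^ N) * ∑ χ : Fin N → AddChar Y ℂ,
        (if χ i ≠ 1 then 2 * (Fintype.card Y : ℝ) else 0) * ‖fc h χ‖ ^ 2 := by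
    have h2 : ∀ c : Y, ∑ x : Fin N → Y, ‖h x - h (Function.update x i (x i + c))‖ ^ 2 =
        (1 / (Fintype.card Y : ℝ) ^ N) * ∑ χ : Fin N → AddChar Y ℂ,
          ‖1 - χ i c‖ ^ 2 * ‖fc h χ‖ ^ 2 := by
      intro c
      have h3 := parseval (fun x => h x - h (Function.update x i (x i + c)))
      simp only [fc_shift, norm_mul, mul_pow] at h3
      rw [h3]
      field_simp
    simp only [h2]
    rw [← Finset.mul_sum, Finset.sum_comm]
    congr 1
    refine Finset.sum_congr rfl (fun χ _ => ?_)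
    rw [← Finset.sum_mul, sum_one_sub]
  have h2 : dInf i h = (∑ c : Y, ∑ x : Fin N → Y,
      ‖h x - h (Function.update x i (x i + c))‖ ^ 2) /
        ((Fintype.card Y : ℝ) ^ N * Fintype.card Y) := by
    unfold dInf avg
    have h3 : (Fintype.card (Fin N → Y) : ℝ) = (Fintype.card Y : ℝ) ^ N := by
      rw [Fintype.card_fun]
      simp
    rw [h3, ← Finset.sum_div, div_div, Finset.sum_comm (s := (Finset.univ : Finset Y)),
      mul_comm ((Fintype.card Y : ℝ) ^ N)]
    congr 1
    refine Finset.sum_congr rfl (fun x _ => ?_)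
    exact (Equiv.sum_comp (Equiv.addLeft (x i))
      (fun b => ‖h x - h (Function.update x i b)‖ ^ 2)).symm
  rw [h2, h1, Finset.sum_filter]
  rw [Finset.mul_sum, Finset.sum_div, Finset.mul_sum]
  refine Finset.sum_congr rfl (fun χ _ => ?_)
  by_cases hχ : χ i = 1
  · simp [hχ]
  · rw [if_pos hχ, if_pos hχ, norm_div, norm_pow, Complex.norm_natCast]
    field_simp

end Pool.Agent.Lib.MP_5d599c_lc.Gen
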