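import Pool.Agent.Lib.MP_5d599c_lc.Gen.Cube

/-!
A point where a low degree function attains its maximal absolute value has few disjoint
blocks which can be changed so that the function vanishes.
-/

open Finset Polynomial

namespace Pool.Agent.Lib.MP_5d599c_lc.Gen

variable {ι : Type*} [DecidableEq ι] {Y : Type*} {E : Type*} [AddCommGroup E]
variable {κ : Type*} [DecidableEq κ]

/-- Alternating sum along blocks. -/
def balt (Bk : κ → Finset ι) (Z : Finset κ) (h : (ι → Y) → E) (y x : ι → Y) : E :=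
  ∑ W ∈ Z.powerset, (-1 : ℤ) ^ W.card • h (mv y x (W.biUnion Bk))

theorem balt_empty (Bk : κ → Finset ι) (h : (ι → Y) → E) (y x : ι → Y) :
    balt Bk ∅ h y x = h x := by
  simp [balt]

theorem balt_insert (Bk : κ → Finset ι) {i : κ} {Z : Finset κ} (hi : i ∉ Z)
    (h : (ι → Y) → E) (y x : ι → Y) :
    balt Bk (insert i Z) h y x = balt Bk Z h y x - balt Bk Z h y (mv y x (Bk i)) := by
  unfold balt
  rw [Finset.sum_powerset_insert hi, sub_eq_add_neg, ← Finset.sum_neg_distrib]
  congr 1
  refine Finset.sum_congr rfl (fun W hW => ?_)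
  have hWZ := Finset.mem_powerset.1 hW
  have hiW : i ∉ W := fun h' => hi (hWZ h')
  rw [Finset.card_insert_of_notMem hiW, Finset.biUnion_insert, mv_union, pow_succ]
  simp

theorem balt_sub (Bk : κ → Finset ι) (Z : Finset κ) (u : (ι → Y) → E) (T : Finset ι)
    (y x : ι → Y) :
    balt Bk Z (fun z => u z - u (mv y z T)) y x =
      balt Bk Z u y x - balt Bk Z u y (mv y x T) := by
  unfold balt
  rw [← Finset.sum_sub_distrib]
  refine Finset.sum_congr rfl (fun W _ => ?_)
  rw [smul_sub, mv_comm]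

theorem balt_vanish {e : ℕ} {h : (ι → Y) → E} (hl : LowDeg e h) (Bk : κ → Finset ι)
    (y : ι → Y) (Z : Finset κ) :
    (∀ i ∈ Z, ∀ j ∈ Z, i ≠ j → Disjoint (Bk i) (Bk j)) → ∀ T : Finset ι,
      (∀ i ∈ Z, Disjoint T (Bk i)) → e ≤ T.card + Z.card →
      ∀ x, balt Bk Z (alt T h y) y x = 0 := by
  induction Z using Finset.induction_on with
  | empty =>
    intro _ T _ hT x
    rw [balt_empty]
    exact hl T (by simpa using hT) y x
  | insert i Z hi ih =>
    intro hdis T hTd hT x
    have hdisZ : ∀ i ∈ Z, ∀ j ∈ Z, i ≠ j → Disjoint (Bk i) (Bk j) := fun a ha b hb hab =>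
      hdis a (Finset.mem_insert_of_mem ha) b (Finset.mem_insert_of_mem hb) hab
    have hdi : ∀ j ∈ Z, Disjoint (Bk i) (Bk j) := fun j hj =>
      hdis i (Finset.mem_insert_self i Z) j (Finset.mem_insert_of_mem hj)
        (fun hij => hi (hij ▸ hj))
    rw [balt_insert Bk hi]
    have claim : ∀ S : Finset ι, S ⊆ Bk i → ∀ z,
        balt Bk Z (alt T h y) y (mv y z S) = balt Bk Z (alt T h y) y z := by
      intro S
      induction S using Finset.induction_on with
      | empty => intro _ z; simp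
      | insert b S hb ihS =>
        intro hS z
        have hbi : b ∈ Bk i := hS (Finset.mem_insert_self b S)
        have hSi : S ⊆ Bk i := fun a ha => hS (Finset.mem_insert_of_mem ha)
        have hbT : b ∉ T := fun hbT =>
          Finset.disjoint_left.1 (hTd i (Finset.mem_insert_self i Z)) hbT hbi
        rw [mv_insert, ihS hSi]
        have h1 := ih hdisZ (insert b T) (by
          intro j hj
          rw [Finset.disjoint_insert_left]
          refine ⟨fun hbj => Finset.disjoint_left.1 (hdi j hj) hbi hbj,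
            hTd j (Finset.mem_insert_of_mem hj)⟩) (by
          rw [Finset.card_insert_of_notMem hbT]
          rw [Finset.card_insert_of_notMem hi] at hT
          omega) z
        have h2 : alt (insert b T) h y = fun w => alt T h y w - alt T h y (mv y w {b}) := by
          funext w; exact alt_insert hbT h y w
        rw [h2, balt_sub, sub_eq_zero] at h1
        exact h1.symm
    rw [claim (Bk i) subset_rfl x, sub_self]

/-- The biased average polynomial. -/
noncomputable def Gp (Bk : κ → Finset ι) (φ : (ι → Y) → ℝ) (U : Finset κ)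
    (y x : ι → Y) : ℝ[X] :=
  ∑ Z ∈ U.powerset, C ((-1) ^ Z.card * balt Bk Z φ y x) * X ^ Z.card

theorem Gp_empty (Bk : κ → Finset ι) (φ : (ι → Y) → ℝ) (y x : ι → Y) :
    Gp Bk φ ∅ y x = C (φ x) := by
  simp [Gp, balt_empty]

theorem Gp_insert (Bk : κ → Finset ι) (φ : (ι → Y) → ℝ) {i : κ} {U : Finset κ} (hi : i ∉ U)
    (y x : ι → Y) :
    Gp Bk φ (insert i U) y x = (1 - X) * Gp Bk φ U y x + X * Gp Bk φ U y (mv y x (Bk i)) := by
  have h1 : (1 - X) * Gp Bk φ U y x + X * Gp Bk φ U y (mv y x (Bk i)) =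
      Gp Bk φ U y x + (X * Gp Bk φ U y (mv y x (Bk i)) - X * Gp Bk φ U y x) := by ring
  rw [h1]
  unfold Gp
  rw [Finset.sum_powerset_insert hi, Finset.mul_sum, Finset.mul_sum, ← Finset.sum_sub_distrib]
  congr 1
  refine Finset.sum_congr rfl (fun Z hZ => ?_)
  have hZU := Finset.mem_powerset.1 hZ
  have hiZ : i ∉ Z := fun h' => hi (hZU h')
  rw [Finset.card_insert_of_notMem hiZ, balt_insert Bk hiZ]
  have h2 : ((-1 : ℝ) ^ (Z.card + 1) * (balt Bk Z φ y x - balt Bk Z φ y (mv y x (Bk i)))) =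
      (-1) ^ Z.card * balt Bk Z φ y (mv y x (Bk i)) - (-1) ^ Z.card * balt Bk Z φ y x := by ring
  rw [h2, C_sub]
  ring

theorem Gp_degree {d : ℕ} {φ : (ι → Y) → ℝ} (hl : LowDeg (d + 1) φ) (Bk : κ → Finset ι)
    (U : Finset κ) (hdis : ∀ i ∈ U, ∀ j ∈ U, i ≠ j → Disjoint (Bk i) (Bk j)) (y x : ι → Y) :
    (Gp Bk φ U y x).natDegree ≤ d := by
  unfold Gp
  refine natDegree_sum_le_of_forall_le _ _ (fun Z hZ => ?_)
  have hZU := Finset.mem_powerset.1 hZ
  by_cases hcard : Z.card ≤ d
  · exact (natDegree_C_mul_X_pow_le _ _).trans hcard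
  · push Not at hcard
    have h0 : balt Bk Z (alt ∅ φ y) y x = 0 :=
      balt_vanish hl Bk y Z (fun i hi j hj hij => hdis i (hZU hi) j (hZU hj) hij) ∅ (by simp)
        (by simpa using hcard) x
    have h1 : alt ∅ φ y = φ := by funext z; exact alt_empty φ y z
    rw [h1] at h0
    rw [h0]
    simp

theorem Gp_bound {M : ℝ} {φ : (ι → Y) → ℝ} (hb : ∀ x, |φ x| ≤ M) (Bk : κ → Finset ι)
    (y : ι → Y) (U : Finset κ) {p : ℝ} (hp0 : 0 ≤ p) (hp1 : p ≤ 1) :
    ∀ x : ι → Y, |(Gp Bk φ U y x).eval p| ≤ M := by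
  induction U using Finset.induction_on with
  | empty => intro x; simpa [Gp_empty] using hb x
  | insert i U hi ih =>
    intro x
    rw [Gp_insert Bk φ hi]
    simp only [eval_add, eval_mul, eval_sub, eval_one, eval_X]
    have h1 := ih x
    have h2 := ih (mv y x (Bk i))
    rw [abs_le] at h1 h2 ⊢
    constructor <;> nlinarith [h1.1, h1.2, h2.1, h2.2]

theorem Gp_eval_zero {φ : (ι → Y) → ℝ} (Bk : κ → Finset ι) (y : ι → Y)
    (U : Finset κ) :
    ∀ x : ι → Y, (Gp Bk φ U y x).eval 0 = φ x := by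
  induction U using Finset.induction_on with
  | empty => intro x; simp [Gp_empty]
  | insert i U hi ih =>
    intro x
    rw [Gp_insert Bk φ hi]
    simp only [eval_add, eval_mul, eval_sub, eval_one, eval_X]
    rw [ih x]; ring

theorem Gp_deriv_zero {φ : (ι → Y) → ℝ} (Bk : κ → Finset ι) (y : ι → Y)
    (U : Finset κ) :
    ∀ x : ι → Y, (derivative (Gp Bk φ U y x)).eval 0 =
      ∑ i ∈ U, (φ (mv y x (Bk i)) - φ x) := by
  induction U using Finset.induction_on with
  | empty => intro x; simp [Gp_empty]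
  | insert i U hi ih =>
    intro x
    rw [Gp_insert Bk φ hi]
    simp only [derivative_add, derivative_mul, derivative_sub, derivative_one, derivative_X,
      eval_add, eval_mul, eval_sub, eval_one, eval_X, eval_zero]
    rw [ih x, Gp_eval_zero Bk y U, Gp_eval_zero Bk y U, Finset.sum_insert hi]
    ring

/-- **Few blocks.** -/
theorem few_blocks {d : ℕ} {φ : (ι → Y) → ℝ} (hl : LowDeg (d + 1) φ) (x0 : ι → Y)
    (hpos : 0 < φ x0) (hb : ∀ x, |φ x| ≤ φ x0) (U : Finset κ) (Bk : κ → Finset ι)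
    (hdis : ∀ i ∈ U, ∀ j ∈ U, i ≠ j → Disjoint (Bk i) (Bk j)) (y : ι → Y)
    (hz : ∀ i ∈ U, φ (mv y x0 (Bk i)) = 0) : U.card ≤ 2 * d ^ 2 := by
  set M := φ x0 with hM
  let G := Gp Bk φ U y x0
  let P : ℝ[X] := C (1 / M) * G.comp (C (1 / 2) * (1 - X))
  have hPeval : ∀ t, P.eval t = (1 / M) * G.eval ((1 / 2) * (1 - t)) := by
    intro t; simp [P]
  have hPbound : ∀ t ∈ Set.Icc (-1 : ℝ) 1, |P.eval t| ≤ 1 := by
    intro t ht
    rw [hPeval, abs_mul, abs_of_pos (by positivity : 0 < 1 / M)]
    have h1 : |G.eval ((1 / 2) * (1 - t))| ≤ M :=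
      Gp_bound hb Bk y U (by linarith [ht.2]) (by linarith [ht.1]) x0
    calc 1 / M * |G.eval ((1 / 2) * (1 - t))| ≤ 1 / M * M := by gcongr
      _ = 1 := by field_simp
  have hPdeg : P.degree ≤ d := by
    refine (degree_le_natDegree).trans ?_
    have h1 : P.natDegree ≤ d := by
      refine (natDegree_C_mul_le _ _).trans ?_
      refine natDegree_comp_le.trans ?_
      have h2 : G.natDegree ≤ d := Gp_degree hl Bk U hdis y x0
      have h3 : (C (1 / 2 : ℝ) * (1 - X)).natDegree ≤ 1 := by
        refine (natDegree_C_mul_le _ _).trans ?_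
        refine (natDegree_sub_le _ _).trans ?_
        simp
      calc G.natDegree * (C (1 / 2 : ℝ) * (1 - X)).natDegree ≤ d * 1 := Nat.mul_le_mul h2 h3
        _ = d := by ring
    exact_mod_cast h1
  have hmark := Chebyshev.eval_iterate_derivative_le_of_forall_abs_le_one (n := d) (k := 1)
    (x := 1) le_rfl hPdeg hPbound
  simp only [Function.iterate_one] at hmark
  have hT : (derivative (Chebyshev.T ℝ d)).eval 1 = (d : ℝ) ^ 2 := by
    rw [Chebyshev.T_derivative_eq_U]
    simp only [eval_mul, Chebyshev.U_eval_one, eval_intCast]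
    push_cast
    ring
  have hPd : (derivative P).eval 1 = (U.card : ℝ) / 2 := by
    have h1 : derivative P = C (1 / M) * (derivative (C (1 / 2 : ℝ) * (1 - X)) *
        (derivative G).comp (C (1 / 2) * (1 - X))) := by
      simp only [P, derivative_C_mul, derivative_comp]
    rw [h1]
    simp only [derivative_C_mul, derivative_sub, derivative_one, derivative_X, eval_mul, eval_C,
      eval_comp, eval_sub, eval_one, eval_X, eval_zero, sub_self, mul_zero, zero_sub, eval_neg]
    rw [Gp_deriv_zero Bk y U x0, Finset.sum_congr rfl (fun i hi => by rw [hz i hi])]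
    simp only [Finset.sum_const, nsmul_eq_mul, zero_sub]
    rw [← hM]
    field_simp
  rw [hT, hPd] at hmark
  have : (U.card : ℝ) ≤ 2 * (d : ℝ) ^ 2 := by linarith
  exact_mod_cast this

end Pool.Agent.Lib.MP_5d599c_lc.Gen
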