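import Pool.Agent.Lib.MP_5d599c_lc.Gen.Tree

/-!
A covariance inequality for decision trees over an arbitrary finite alphabet, in a form that
holds for all test functions at once.
-/

open Finset

namespace Pool.Agent.Lib.MP_5d599c_lc.Gen

variable {ι : Type*} [DecidableEq ι] [Fintype ι] {Y : Type*} [Fintype Y] [Nonempty Y]

omit [Nonempty Y] in
/-- Average over `ι → Y`. -/
noncomputable def avg (F : (ι → Y) → ℝ) : ℝ := (∑ x, F x) / (Fintype.card (ι → Y) : ℝ)

theorem card_pos_cube : (0 : ℝ) < (Fintype.card (ι → Y) : ℝ) := by
  exact_mod_cast Fintype.card_pos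

theorem card_pos_Y : (0 : ℝ) < (Fintype.card Y : ℝ) := by
  exact_mod_cast Fintype.card_pos

omit [Nonempty Y] in
theorem avg_add (F G : (ι → Y) → ℝ) : avg (fun x => F x + G x) = avg F + avg G := by
  simp [avg, Finset.sum_add_distrib, add_div]

omit [Nonempty Y] in
theorem avg_sub (F G : (ι → Y) → ℝ) : avg (fun x => F x - G x) = avg F - avg G := by
  simp [avg, Finset.sum_sub_distrib, sub_div]

omit [Nonempty Y] in
theorem avg_const_mul (c : ℝ) (F : (ι → Y) → ℝ) : avg (fun x => c * F x) = c * avg F := by
  simp [avg, ← Finset.mul_sum, mul_div_assoc]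

theorem avg_const (c : ℝ) : avg (fun _ : ι → Y => c) = c := by
  have := card_pos_cube (ι := ι) (Y := Y)
  simp only [avg, Finset.sum_const, Finset.card_univ, nsmul_eq_mul]
  field_simp

theorem avg_mono {F G : (ι → Y) → ℝ} (h : ∀ x, F x ≤ G x) : avg F ≤ avg G := by
  unfold avg
  have := card_pos_cube (ι := ι) (Y := Y)
  gcongr
  exact h _

theorem abs_avg_le (F : (ι → Y) → ℝ) : |avg F| ≤ avg (fun x => |F x|) := by
  unfold avg
  have := card_pos_cube (ι := ι) (Y := Y)
  rw [abs_div, abs_of_pos this]
  gcongr
  exact Finset.abs_sum_le_sum_abs _ _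

omit [Nonempty Y] in
theorem avg_sum {β : Type*} (s : Finset β) (F : β → (ι → Y) → ℝ) :
    avg (fun x => ∑ b ∈ s, F b x) = ∑ b ∈ s, avg (F b) := by
  unfold avg
  rw [Finset.sum_comm, Finset.sum_div]

omit [Nonempty Y] in
theorem sum_update {M : Type*} [AddCommMonoid M] (F : (ι → Y) → M) (i : ι) :
    ∑ x, ∑ b : Y, F (Function.update x i b) = Fintype.card Y • ∑ x, F x := by
  let e : (ι → Y) × Y ≃ (ι → Y) × Y :=
    ⟨fun p => (Function.update p.1 i p.2, p.1 i), fun p => (Function.update p.1 i p.2, p.1 i),
      fun p => by simp, fun p => by simp⟩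
  have h1 : ∑ x, ∑ b : Y, F (Function.update x i b) =
      ∑ p : (ι → Y) × Y, F (Function.update p.1 i p.2) := by
    rw [Fintype.sum_prod_type]
  have h2 : ∑ p : (ι → Y) × Y, F (Function.update p.1 i p.2) = ∑ p : (ι → Y) × Y, F p.1 :=
    e.sum_comp (fun p => F p.1)
  rw [h1, h2, Fintype.sum_prod_type, Finset.smul_sum]
  refine Finset.sum_congr rfl (fun x _ => ?_)
  simp

theorem avg_update (F : (ι → Y) → ℝ) (i : ι) :
    avg F = (∑ b : Y, avg (fun x => F (Function.update x i b))) / Fintype.card Y := by
  have h1 := sum_update F i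
  have hY := card_pos_Y (Y := Y)
  unfold avg
  rw [← Finset.sum_div, Finset.sum_comm, h1, nsmul_eq_mul]
  field_simp

omit [Nonempty Y] in
/-- The average change of `φ` when coordinate `i` is resampled. -/
noncomputable def resamp (i : ι) (φ : (ι → Y) → ℝ) : ℝ :=
  avg (fun x => (∑ b : Y, |φ (Function.update x i b) - φ x|) / Fintype.card Y)

theorem resamp_nonneg (i : ι) (φ : (ι → Y) → ℝ) : 0 ≤ resamp i φ := by
  have h1 : (0 : ℝ) = avg (fun _ : ι → Y => 0) := (avg_const 0).symm
  rw [h1]
  refine avg_mono (fun x => ?_)
  positivity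

/-- **Covariance inequality for decision trees**: the weights do not depend on the function. -/
theorem osss (n : ℕ) : ∀ h : (ι → Y) → ℝ, DT n h → (∀ x, |h x| ≤ 1) →
    ∃ δ : ι → ℝ, (∀ i, 0 ≤ δ i) ∧ ∑ i, δ i ≤ n ∧ ∀ φ : (ι → Y) → ℝ,
      |avg (fun x => h x * φ x) - avg h * avg φ| ≤ ∑ i, δ i * resamp i φ := by
  have hconst : ∀ h : (ι → Y) → ℝ, (∀ x y, h x = h y) → ∀ φ : (ι → Y) → ℝ,
      |avg (fun x => h x * φ x) - avg h * avg φ| = 0 := by
    intro h hc φ
    obtain ⟨x0⟩ : Nonempty (ι → Y) := inferInstance
    have h1 : avg (fun x => h x * φ x) = h x0 * avg φ := by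
      rw [← avg_const_mul]
      congr 1
      funext x
      rw [hc x x0]
    have h2 : avg h = h x0 := by
      have : h = fun _ => h x0 := by funext x; exact hc x x0
      rw [this, avg_const]
    rw [h1, h2]
    simp
  induction n with
  | zero =>
    intro h hD _
    refine ⟨fun _ => 0, fun _ => le_rfl, by simp, fun φ => ?_⟩
    rw [hconst h hD]
    simp
  | succ n ih =>
    intro h hD hb
    rcases hD with hD | ⟨i, hi⟩
    · refine ⟨fun _ => 0, fun _ => le_rfl, ?_, fun φ => ?_⟩
      · simp only [Finset.sum_const_zero]; positivity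
      · rw [hconst h hD]
        simp
    · have hY := card_pos_Y (Y := Y)
      let hb' : Y → (ι → Y) → ℝ := fun b x => h (Function.update x i b)
      have ih' := fun b => ih (hb' b) (hi b) (fun x => hb _)
      choose δ hδ0 hδs hδ using ih'
      refine ⟨fun j => (if j = i then 1 else 0) + (∑ b : Y, δ b j) / Fintype.card Y, ?_, ?_, ?_⟩
      · intro j
        have h1 : 0 ≤ (∑ b : Y, δ b j) / Fintype.card Y :=
          div_nonneg (Finset.sum_nonneg (fun b _ => hδ0 b j)) hY.le
        have h2 : (0 : ℝ) ≤ if j = i then 1 else 0 := by split_ifs <;> norm_num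
        exact add_nonneg h2 h1
      · rw [Finset.sum_add_distrib, ← Finset.sum_div, Finset.sum_comm]
        have h1 : ∑ b : Y, ∑ j, δ b j ≤ ∑ _b : Y, (n : ℝ) :=
          Finset.sum_le_sum (fun b _ => hδs b)
        rw [Finset.sum_const, Finset.card_univ, nsmul_eq_mul] at h1
        have h2 : (∑ b : Y, ∑ j, δ b j) / Fintype.card Y ≤ n := by
          rw [div_le_iff₀ hY]; linarith
        have h3 : ∑ j : ι, (if j = i then (1 : ℝ) else 0) = 1 := by simp
        rw [h3]
        push_cast
        linarith
      · intro φ
        have e1 : avg (fun x => h x * φ x) =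
            (∑ b : Y, avg (fun x => hb' b x * φ (Function.update x i b))) / Fintype.card Y :=
          avg_update (fun x => h x * φ x) i
        have e2 : avg h = (∑ b : Y, avg (hb' b)) / Fintype.card Y := avg_update h i
        have e3 : avg (fun x => h x * φ x) - avg h * avg φ =
            (∑ b : Y, avg (fun x => hb' b x * (φ (Function.update x i b) - φ x))) /
              Fintype.card Y +
            (∑ b : Y, (avg (fun x => hb' b x * φ x) - avg (hb' b) * avg φ)) /
              Fintype.card Y := by
          rw [e1, e2]
          have e4 : ∀ b, avg (fun x => hb' b x * (φ (Function.update x i b) - φ x)) =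
              avg (fun x => hb' b x * φ (Function.update x i b)) -
              avg (fun x => hb' b x * φ x) := by
            intro b
            rw [← avg_sub]
            congr 1
            funext x
            ring
          simp only [e4, Finset.sum_sub_distrib, ← Finset.sum_mul]
          ring
        have h5 : |(∑ b : Y, avg (fun x => hb' b x * (φ (Function.update x i b) - φ x))) /
              Fintype.card Y| ≤ resamp i φ := by
          have h51 : (∑ b : Y, avg (fun x => hb' b x * (φ (Function.update x i b) - φ x))) /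
              Fintype.card Y = avg (fun x => (∑ b : Y, hb' b x *
                (φ (Function.update x i b) - φ x)) / Fintype.card Y) := by
            rw [← avg_sum]
            have := avg_const_mul (1 / (Fintype.card Y : ℝ)) (fun x => ∑ b : Y, hb' b x *
                (φ (Function.update x i b) - φ x))
            rw [div_eq_mul_one_div, mul_comm, ← this]
            congr 1
            funext x
            ring
          rw [h51]
          refine (abs_avg_le _).trans (avg_mono (fun x => ?_))
          rw [abs_div, abs_of_pos hY]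
          gcongr
          refine (Finset.abs_sum_le_sum_abs _ _).trans (Finset.sum_le_sum (fun b _ => ?_))
          rw [abs_mul]
          have := hb (Function.update x i b)
          calc |hb' b x| * |φ (Function.update x i b) - φ x|
              ≤ 1 * |φ (Function.update x i b) - φ x| := by gcongr
            _ = _ := one_mul _
        have h6 : |(∑ b : Y, (avg (fun x => hb' b x * φ x) - avg (hb' b) * avg φ)) /
              Fintype.card Y| ≤ (∑ b : Y, ∑ j, δ b j * resamp j φ) / Fintype.card Y := by
          rw [abs_div, abs_of_pos hY]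
          gcongr
          exact (Finset.abs_sum_le_sum_abs _ _).trans (Finset.sum_le_sum (fun b _ => hδ b φ))
        have h7 : ∑ j, ((if j = i then (1 : ℝ) else 0) + (∑ b : Y, δ b j) / Fintype.card Y) *
            resamp j φ = resamp i φ + (∑ b : Y, ∑ j, δ b j * resamp j φ) / Fintype.card Y := by
          simp only [add_mul, Finset.sum_add_distrib, ite_mul, one_mul, zero_mul,
            Finset.sum_ite_eq', Finset.mem_univ, if_true]
          congr 1
          rw [Finset.sum_comm, Finset.sum_div]
          refine Finset.sum_congr rfl (fun j _ => ?_)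
          rw [div_mul_eq_mul_div, Finset.sum_mul]
        rw [e3, h7]
        exact (abs_add_le _ _).trans (add_le_add h5 h6)

end Pool.Agent.Lib.MP_5d599c_lc.Gen
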