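import Pool.Agent.Lib.MP_5d599c_lc.Gen.Markov

/-!
Functions with disjoint supports and low degree are separated by a shallow decision tree
(arbitrary finite alphabet).
-/

open Finset

namespace Pool.Agent.Lib.MP_5d599c_lc.Gen

variable {ι : Type*} [DecidableEq ι] [Fintype ι] {Y : Type*} [Finite Y] [Nonempty Y]
variable {E : Type*} [NormedAddCommGroup E] [InnerProductSpace ℝ E]
variable {E' : Type*} [AddCommGroup E']

/-- At a point of maximal norm of `f` there is a small certificate for the vanishing of `g`. -/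
theorem exists_certificate {d e : ℕ} {f : (ι → Y) → E} {g : (ι → Y) → E'}
    (hfg : ∀ x, f x = 0 ∨ g x = 0) (hf : LowDeg (d + 1) f) (hg : LowDeg (e + 1) g)
    (x0 : ι → Y) (hx0 : f x0 ≠ 0) (hmax : ∀ x, ‖f x‖ ≤ ‖f x0‖) :
    ∃ C : Finset ι, C.card ≤ 2 * d ^ 2 * e ∧ ∀ y, g (C.piecewise x0 y) = 0 := by
  classical
  haveI := Fintype.ofFinite Y
  -- the real function
  let φ : (ι → Y) → ℝ := fun x => inner ℝ (f x0) (f x)
  have hφ : LowDeg (d + 1) φ := hf.map ((innerSL ℝ (f x0)).toLinearMap.toAddMonoidHom)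
  have hφ0 : φ x0 = ‖f x0‖ ^ 2 := real_inner_self_eq_norm_sq (f x0)
  have hφpos : 0 < φ x0 := by
    rw [hφ0]; have := norm_pos_iff.2 hx0; positivity
  have hφb : ∀ x, |φ x| ≤ φ x0 := by
    intro x
    rw [hφ0]
    refine (abs_real_inner_le_norm (f x0) (f x)).trans ?_
    have := hmax x
    nlinarith [norm_nonneg (f x0), norm_nonneg (f x)]
  have hg0 : g x0 = 0 := (hfg x0).resolve_left hx0
  -- minimal blocks
  let D : (ι → Y) → Finset ι := fun z => Finset.univ.filter (fun i => z i ≠ x0 i)
  have hDmem : ∀ z i, i ∈ D z ↔ z i ≠ x0 i := fun z i => by simp [D]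
  have hmvD : ∀ z, mv z x0 (D z) = z := by
    intro z
    funext i
    by_cases h : i ∈ D z
    · simp [mv, h]
    · have h2 : z i = x0 i := by
        by_contra hne
        exact h ((hDmem z i).2 hne)
      simp [mv, h, h2]
  let Min : (ι → Y) → Prop := fun z => g z ≠ 0 ∧ ∀ S ⊂ D z, g (mv z x0 S) = 0
  let Good : Finset (ι → Y) → Prop := fun P => (∀ z ∈ P, Min z) ∧
    ∀ z ∈ P, ∀ z' ∈ P, z ≠ z' → Disjoint (D z) (D z')
  have hne : (Finset.univ.filter Good).Nonempty := ⟨∅, by simp [Good]⟩
  obtain ⟨P, hP, hPmax⟩ := Finset.exists_max_image (Finset.univ.filter Good) Finset.card hne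
  simp only [Finset.mem_filter, Finset.mem_univ, true_and] at hP hPmax
  have hcardP : P.card ≤ 2 * d ^ 2 := by
    let Y0 : ι → Y := fun i => if h : ∃ z ∈ P, i ∈ D z then (Classical.choose h) i else x0 i
    have hY0 : ∀ z ∈ P, ∀ i ∈ D z, Y0 i = z i := by
      intro z hz i hi
      have hex : ∃ z ∈ P, i ∈ D z := ⟨z, hz, hi⟩
      have h1 : Y0 i = (Classical.choose hex) i := dif_pos hex
      have h2 := Classical.choose_spec hex
      have h3 : Classical.choose hex = z := by
        by_contra hne
        exact Finset.disjoint_left.1 (hP.2 _ h2.1 z hz hne) h2.2 hi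
      rw [h1, h3]
    refine few_blocks hφ x0 hφpos hφb P D hP.2 Y0 ?_
    intro z hz
    rw [mv_congr (fun i hi => hY0 z hz i hi), hmvD]
    have h1 := (hP.1 z hz).1
    have h2 : f z = 0 := (hfg _).resolve_right h1
    simp [φ, h2]
  have hcardB : ∀ z ∈ P, (D z).card ≤ e := fun z hz =>
    Nat.lt_succ_iff.1 (hg.card_lt_of_minimal z x0 (D z) (by rw [hmvD]; exact (hP.1 z hz).1)
      (hP.1 z hz).2)
  refine ⟨P.biUnion D, ?_, ?_⟩
  · calc (P.biUnion D).card ≤ ∑ z ∈ P, (D z).card := Finset.card_biUnion_le
      _ ≤ ∑ _z ∈ P, e := Finset.sum_le_sum (fun z hz => hcardB z hz)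
      _ = P.card * e := by simp
      _ ≤ 2 * d ^ 2 * e := Nat.mul_le_mul_right e hcardP
  · intro y
    by_contra hy
    set w : ι → Y := (P.biUnion D).piecewise x0 y with hw
    have hSdis : Disjoint (P.biUnion D) (D w) := by
      rw [Finset.disjoint_left]
      intro i hiC hiS
      have h1 := (hDmem w i).1 hiS
      apply h1
      rw [hw]
      simp only [Finset.piecewise, hiC, if_true]
    -- a minimal block inside `D w`
    have hne2 : ((D w).powerset.filter (fun B => g (mv w x0 B) ≠ 0)).Nonempty :=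
      ⟨D w, by
        simp only [Finset.mem_filter, Finset.mem_powerset, subset_refl, true_and]
        rw [hmvD]; exact hy⟩
    obtain ⟨B, hB, hBmin⟩ := Finset.exists_min_image _ Finset.card hne2
    simp only [Finset.mem_filter, Finset.mem_powerset, ne_eq] at hB hBmin
    set z : ι → Y := mv w x0 B with hz
    have hDz : D z = B := by
      ext i
      rw [hDmem]
      by_cases hi : i ∈ B
      · have h1 := (hDmem w i).1 (hB.1 hi)
        simp only [hz, mv, hi, if_true, iff_true]
        exact h1
      · simp [hz, mv, hi]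
    have hMinz : Min z := by
      refine ⟨hB.2, fun S' hS' => ?_⟩
      rw [hDz] at hS'
      have h1 : mv z x0 S' = mv w x0 S' := by
        refine mv_congr (fun i hi => ?_) x0
        simp [hz, mv, hS'.subset hi]
      rw [h1]
      by_contra hcon
      have h1 := hBmin S' ⟨hS'.subset.trans hB.1, hcon⟩
      exact absurd (Finset.card_lt_card hS') (not_lt.2 h1)
    have hBdis : ∀ z' ∈ P, Disjoint (D z') (D z) := by
      intro z' hz'
      have h1 : D z' ⊆ P.biUnion D := fun i hi => Finset.mem_biUnion.2 ⟨z', hz', hi⟩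
      rw [hDz]
      exact (hSdis.mono_left h1).mono_right hB.1
    have hBne : (D z).Nonempty := by
      rw [Finset.nonempty_iff_ne_empty]
      intro h0
      have h1 : z = x0 := by rw [← hmvD z, h0, mv_empty]
      exact hB.2 (by rw [h1]; exact hg0)
    have hBP : z ∉ P := by
      intro hBP
      have h1 := hBdis z hBP
      rw [disjoint_self] at h1
      exact hBne.ne_empty h1
    have hgood : Good (insert z P) := by
      constructor
      · intro B' hB'
        rcases Finset.mem_insert.1 hB' with h | h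
        · rw [h]; exact hMinz
        · exact hP.1 B' h
      · intro B1 h1 B2 h2 h12
        rcases Finset.mem_insert.1 h1 with h1 | h1 <;> rcases Finset.mem_insert.1 h2 with h2 | h2
        · exact absurd (h1.trans h2.symm) h12
        · rw [h1]; exact (hBdis B2 h2).symm
        · rw [h2]; exact hBdis B1 h1
        · exact hP.2 B1 h1 B2 h2 h12
    have := hPmax (insert z P) hgood
    rw [Finset.card_insert_of_notMem hBP] at this
    omega

omit [Fintype ι] [Finite Y] [Nonempty Y] in
/-- `h` is computed by a decision tree of depth at most `n`. -/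
def DT : ℕ → ((ι → Y) → ℝ) → Prop
  | 0, h => ∀ x y, h x = h y
  | n + 1, h => (∀ x y, h x = h y) ∨ ∃ i : ι, ∀ b : Y, DT n (fun x => h (Function.update x i b))

omit [Fintype ι] [Finite Y] [Nonempty Y] in
theorem DT.of_const {n : ℕ} {h : (ι → Y) → ℝ} (hc : ∀ x y, h x = h y) : DT n h := by
  cases n with
  | zero => exact hc
  | succ n => exact Or.inl hc

omit [Fintype ι] [Finite Y] [Nonempty Y] in
theorem DT.succ {n : ℕ} : ∀ {h : (ι → Y) → ℝ}, DT n h → DT (n + 1) h := by
  induction n with
  | zero => intro h hh; exact Or.inl hh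
  | succ n ih =>
    intro h hh
    rcases hh with hh | ⟨i, hi⟩
    · exact Or.inl hh
    · exact Or.inr ⟨i, fun b => ih (hi b)⟩

omit [Fintype ι] [Finite Y] [Nonempty Y] in
theorem DT.mono {n m : ℕ} (hnm : n ≤ m) {h : (ι → Y) → ℝ} (hh : DT n h) : DT m h := by
  induction hnm with
  | refl => exact hh
  | step _ ih => exact ih.succ

omit [Fintype ι] [Finite Y] [Nonempty Y] in
theorem DT.subst {n : ℕ} : ∀ {h : (ι → Y) → ℝ}, DT n h → ∀ (i : ι) (b : Y),
    DT n (fun x => h (Function.update x i b)) := by
  induction n with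
  | zero => intro h hh i b x y; exact hh _ _
  | succ n ih =>
    intro h hh i b
    rcases hh with hh | ⟨j, hj⟩
    · exact Or.inl (fun x y => hh _ _)
    · by_cases hij : j = i
      · subst hij
        exact (hj b).succ
      · refine Or.inr ⟨j, fun c => ?_⟩
        have h1 := ih (hj c) i b
        have h2 : (fun x : ι → Y => h (Function.update (Function.update x j c) i b)) =
            fun x => h (Function.update (Function.update x i b) j c) := by
          funext x
          rw [Function.update_comm hij]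
        rw [h2]
        exact h1

omit [Fintype ι] [Finite Y] [Nonempty Y] in
/-- The supports of `f` and `g` are separated by a decision tree of depth `n`. -/
def Sepr {F G : Type*} [Zero F] [Zero G] (n : ℕ) (f : (ι → Y) → F)
    (g : (ι → Y) → G) : Prop :=
  ∃ h : (ι → Y) → ℝ, DT n h ∧ (∀ x, h x = 0 ∨ h x = 1) ∧ (∀ x, f x ≠ 0 → h x = 1) ∧
    ∀ x, g x ≠ 0 → h x = 0

omit [Fintype ι] [Finite Y] [Nonempty Y] in
theorem Sepr.mono {F G : Type*} [Zero F] [Zero G] {n m : ℕ} (hnm : n ≤ m)
    {f : (ι → Y) → F} {g : (ι → Y) → G} (hs : Sepr n f g) : Sepr m f g := by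
  obtain ⟨h, h1, h2⟩ := hs
  exact ⟨h, h1.mono hnm, h2⟩

omit [Fintype ι] [Finite Y] [Nonempty Y] in
theorem Sepr.query {F G : Type*} [Zero F] [Zero G] {n : ℕ}
    {f : (ι → Y) → F} {g : (ι → Y) → G} (i : ι)
    (hs : ∀ b : Y, Sepr n (fun x => f (Function.update x i b))
      (fun x => g (Function.update x i b))) : Sepr (n + 1) f g := by
  choose h h1 h2 h3 h4 using hs
  refine ⟨fun x => h (x i) x, Or.inr ⟨i, fun b => ?_⟩, fun x => h2 _ _, fun x hx => ?_,
    fun x hx => ?_⟩
  · have h5 := (h1 b).subst i b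
    simpa using h5
  · apply h3
    simpa using hx
  · apply h4
    simpa using hx

omit [Fintype ι] [Finite Y] in
theorem Sepr.querySet {F G : Type*} [Zero F] [Zero G] {n : ℕ} (C : Finset ι) :
    ∀ {f : (ι → Y) → F} {g : (ι → Y) → G},
    (∀ ρ : ι → Y, Sepr n (fun x => f (C.piecewise ρ x)) (fun x => g (C.piecewise ρ x))) →
    Sepr (n + C.card) f g := by
  induction C using Finset.induction_on with
  | empty =>
    intro f g hs
    simpa using hs (fun _ => Classical.arbitrary Y)
  | insert i C hi ih =>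
    intro f g hs
    rw [Finset.card_insert_of_notMem hi, ← add_assoc]
    refine Sepr.query i (fun b => ?_)
    refine ih (fun ρ => ?_)
    have h1 := hs (Function.update ρ i b)
    have h2 : ∀ x : ι → Y, (insert i C).piecewise (Function.update ρ i b) x =
        Function.update (C.piecewise ρ x) i b := by
      intro x
      funext j
      by_cases hj : j = i
      · subst hj
        simp [Finset.piecewise]
      · simp [Finset.piecewise, hj]
    simp only [h2] at h1
    exact h1

/-- **Separation.** -/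
theorem separation (d : ℕ) (e : ℕ) : ∀ {f : (ι → Y) → E} {g : (ι → Y) → E'},
    (∀ x, f x = 0 ∨ g x = 0) → LowDeg (d + 1) f → LowDeg e g → e ≤ d + 1 →
    Sepr (e * (2 * d ^ 3)) f g := by
  induction e with
  | zero =>
    intro f g hfg hf hg he
    refine ⟨fun _ => 1, DT.of_const (fun _ _ => rfl), fun _ => Or.inr rfl, fun _ _ => rfl, ?_⟩
    intro x hx
    exfalso
    apply hx
    have := hg ∅ (by simp) x x
    rwa [alt_empty] at this
  | succ e ih =>
    intro f g hfg hf hg he
    by_cases hf0 : ∀ x, f x = 0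
    · refine ⟨fun _ => 0, DT.of_const (fun _ _ => rfl), fun _ => Or.inl rfl, ?_, fun _ _ => rfl⟩
      intro x hx
      exact absurd (hf0 x) hx
    · push Not at hf0
      obtain ⟨x1, hx1⟩ := hf0
      obtain ⟨x0, hx0⟩ := Finite.exists_max (fun x => ‖f x‖)
      have hx0ne : f x0 ≠ 0 := by
        have := hx0 x1
        have h1 := norm_pos_iff.2 hx1
        exact norm_pos_iff.1 (h1.trans_le this)
      obtain ⟨C, hCcard, hC⟩ := exists_certificate hfg hf hg x0 hx0ne hx0
      have hrec : Sepr (e * (2 * d ^ 3) + C.card) f g := by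
        refine Sepr.querySet C (fun ρ => ?_)
        exact ih (fun x => hfg _) (hf.piecewise C ρ) (hg.drop C x0 hC ρ) (by omega)
      refine hrec.mono ?_
      have hed : e ≤ d := by omega
      have h1 : 2 * d ^ 2 * e ≤ 2 * d ^ 3 := by
        calc 2 * d ^ 2 * e ≤ 2 * d ^ 2 * d := Nat.mul_le_mul_left _ hed
          _ = 2 * d ^ 3 := by ring
      calc e * (2 * d ^ 3) + C.card ≤ e * (2 * d ^ 3) + 2 * d ^ 3 := by omega
        _ = (e + 1) * (2 * d ^ 3) := by ring

end Pool.Agent.Lib.MP_5d599c_lc.Gen
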